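import Pool.Agent.Helper5.LCU.Stmts

set_option autoImplicit false

open Finset Pool.Agent.Helper5.LCU

namespace Pool.Agent.Helper26.LCU

/-- Pascal rule for a binomial sum -/
theorem binsum (f : ℕ → ℝ) (n : ℕ) :
    ∑ i ∈ range (n + 1 + 1), ((n + 1).choose i : ℝ) * f i =
      ∑ i ∈ range (n + 1), (n.choose i : ℝ) * f (i + 1) +
        ∑ i ∈ range (n + 1), (n.choose i : ℝ) * f i := by
  have h1 : ∑ i ∈ range (n + 1 + 1), ((n + 1).choose i : ℝ) * f i =
      ∑ i ∈ range (n + 1), ((n + 1).choose (i + 1) : ℝ) * f (i + 1) + f 0 := by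
    rw [Finset.sum_range_succ']
    simp
  have h2 : ∑ i ∈ range (n + 1 + 1), (n.choose i : ℝ) * f i =
      ∑ i ∈ range (n + 1), (n.choose (i + 1) : ℝ) * f (i + 1) + f 0 := by
    rw [Finset.sum_range_succ']
    simp
  have h3 : ∑ i ∈ range (n + 1 + 1), (n.choose i : ℝ) * f i =
      ∑ i ∈ range (n + 1), (n.choose i : ℝ) * f i := by
    rw [Finset.sum_range_succ]
    simp
  have h4 : ∑ i ∈ range (n + 1), ((n + 1).choose (i + 1) : ℝ) * f (i + 1) =
      ∑ i ∈ range (n + 1), (n.choose i : ℝ) * f (i + 1) +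
        ∑ i ∈ range (n + 1), (n.choose (i + 1) : ℝ) * f (i + 1) := by
    rw [← Finset.sum_add_distrib]
    refine Finset.sum_congr rfl fun i _ => ?_
    rw [Nat.choose_succ_succ]
    push_cast
    ring
  rw [h1, h4]
  linarith

/-- the inner sum -/
theorem inner (b : ℕ → ℝ) (i m : ℕ) :
    ∑ r ∈ range (i + 1 + 1), ((i + 1).choose r : ℝ) * b (m + 1 - r) =
      ∑ r ∈ range (i + 1), (i.choose r : ℝ) * b (m - r) +
        ∑ r ∈ range (i + 1), (i.choose r : ℝ) * b (m + 1 - r) := by
  have h := binsum (fun r => b (m + 1 - r)) i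
  simp only [Nat.add_sub_add_right] at h
  exact h

theorem st_GF : ST_GF := by
  intro a b n
  induction n with
  | zero =>
    intro p q
    simp [GA, mul_comm]
  | succ n ih =>
    intro p q
    have h := binsum (fun i => (∑ r ∈ range (i + 1), (i.choose r : ℝ) * b (q + (n + 1) - r)) *
      a (p + i)) n
    simp only [← mul_assoc] at h
    rw [h]
    rw [show GA a b (n + 1) p q = GA a b n (p + 1) q + GA a b n p (q + 1) +
      GA a b n (p + 1) (q + 1) from rfl]
    rw [ih (p + 1) q, ih p (q + 1), ih (p + 1) (q + 1)]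
    have e1 : q + 1 + n = q + (n + 1) := by omega
    rw [e1]
    have h2 : ∑ i ∈ range (n + 1), (n.choose i : ℝ) *
        (∑ r ∈ range (i + 1 + 1), ((i + 1).choose r : ℝ) * b (q + (n + 1) - r)) *
          a (p + (i + 1)) =
        ∑ i ∈ range (n + 1), (n.choose i : ℝ) *
          (∑ r ∈ range (i + 1), (i.choose r : ℝ) * b (q + n - r)) * a (p + 1 + i) +
        ∑ i ∈ range (n + 1), (n.choose i : ℝ) *
          (∑ r ∈ range (i + 1), (i.choose r : ℝ) * b (q + (n + 1) - r)) * a (p + 1 + i) := by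
      rw [← Finset.sum_add_distrib]
      refine Finset.sum_congr rfl fun i _ => ?_
      have h3 := inner b i (q + n)
      rw [show q + n + 1 = q + (n + 1) from by omega] at h3
      rw [h3, show p + (i + 1) = p + 1 + i from by omega]
      ring
    rw [h2]
    ring

end Pool.Agent.Helper26.LCU
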