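import Pool.Agent.Helper26.LCU.GF

set_option autoImplicit false

open Finset Pool.Agent.Helper5.LCU

namespace Pool.Agent.Helper26.LCU

theorem tpr_aux (a b : ℕ → ℝ) (q : ℕ) : ∀ p r : ℕ,
    (∑ m ∈ range (q + 1), (q.choose m : ℝ) * a (m + p)) *
      (∑ m ∈ range (q + 1), (q.choose m : ℝ) * b (m + r)) =
    ∑ m ∈ range (q + 1), (q.choose m : ℝ) * GA a b m p r := by
  induction q with
  | zero =>
    intro p r
    simp [GA]
  | succ q ih =>
    intro p r
    have ha := binsum (fun m => a (m + p)) q
    have hb := binsum (fun m => b (m + r)) q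
    have hg := binsum (fun m => GA a b m p r) q
    have ea : ∑ i ∈ range (q + 1), (q.choose i : ℝ) * a (i + 1 + p) =
        ∑ i ∈ range (q + 1), (q.choose i : ℝ) * a (i + (p + 1)) := by
      refine Finset.sum_congr rfl fun i _ => ?_
      rw [show i + 1 + p = i + (p + 1) from by omega]
    have eb : ∑ i ∈ range (q + 1), (q.choose i : ℝ) * b (i + 1 + r) =
        ∑ i ∈ range (q + 1), (q.choose i : ℝ) * b (i + (r + 1)) := by
      refine Finset.sum_congr rfl fun i _ => ?_
      rw [show i + 1 + r = i + (r + 1) from by omega]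
    have eg : ∑ i ∈ range (q + 1), (q.choose i : ℝ) * GA a b (i + 1) p r =
        ∑ i ∈ range (q + 1), (q.choose i : ℝ) * GA a b i (p + 1) r +
        ∑ i ∈ range (q + 1), (q.choose i : ℝ) * GA a b i p (r + 1) +
        ∑ i ∈ range (q + 1), (q.choose i : ℝ) * GA a b i (p + 1) (r + 1) := by
      rw [← Finset.sum_add_distrib, ← Finset.sum_add_distrib]
      refine Finset.sum_congr rfl fun i _ => ?_
      rw [show GA a b (i + 1) p r = GA a b i (p + 1) r + GA a b i p (r + 1) +
        GA a b i (p + 1) (r + 1) from rfl]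
      ring
    rw [hg, eg, ha, hb, ea, eb, ← ih p r, ← ih (p + 1) r, ← ih p (r + 1), ← ih (p + 1) (r + 1)]
    ring

theorem st_TPR : ST_TPR := by
  intro a b q
  exact tpr_aux a b q 0 0

end Pool.Agent.Helper26.LCU
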